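import Pool.Agent.X260.VA.Main

/-! Question 1 of MP_f748d5_al in full: amalgams of finitely generated virtually abelian groups over
virtually cyclic subgroups have the required virtually abelian images.

Proof. Choose normal free abelian subgroups `N₁, N₂` of finite index of `G₁, G₂` with the same preimage
`N₀` in `G₀`, where `N₀ = 1` if `G₀` is finite and `N₀ = ⟨c⟩` is infinite cyclic otherwise (divide `c` by
its content). The groups `G₁` and `G₂` act on the same set `(G₀/N₀) × Y₁ × Y₂ × M` by monomial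
permutations, where `Yᵢ = G₀ \ Gᵢ / Nᵢ` and `M = N₁ ⊗ N₂` (or `N₁ × N₂` if `G₀` is finite): the first one
is induced from the homomorphisms `n ↦ n ⊗ c^y₂` and the second one from `n ↦ c^y₁ ⊗ n`. The two actions
agree on `G₀`. -/

set_option autoImplicit false

namespace Pool.Agent.Results.MP_f748d5_al.VirtuallyAbelianImages

open Pool.Agent.X260.VA Monoid

universe u v w

/-- virtually abelian: some subgroup of finite index is abelian -/
def IsVirtuallyAbelian (H : Type*) [Group H] : Prop :=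
  ∃ A : Subgroup H, A.FiniteIndex ∧ ∀ x ∈ A, ∀ y ∈ A, x * y = y * x

/-- virtually cyclic: some subgroup of finite index is cyclic -/
def IsVirtuallyCyclic (H : Type*) [Group H] : Prop :=
  ∃ C : Subgroup H, C.FiniteIndex ∧ IsCyclic C

section amalg

variable {G₀ : Type u} {G₁ : Type v} {G₂ : Type w} [Group G₀] [Group G₁] [Group G₂]

/-- the amalgamated free product: the quotient of the free product of `G₁` and `G₂` by the normal
closure of the elements `i₁(g) i₂(g)⁻¹`, `g ∈ G₀` -/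
abbrev Amalg (i₁ : G₀ →* G₁) (i₂ : G₀ →* G₂) : Type (max v w) :=
  Coprod G₁ G₂ ⧸ Subgroup.normalClosure
    {x : Coprod G₁ G₂ | ∃ g : G₀, x = Coprod.inl (i₁ g) * (Coprod.inr (i₂ g))⁻¹}

/-- the canonical homomorphism of `G₁` -/
def in₁ (i₁ : G₀ →* G₁) (i₂ : G₀ →* G₂) : G₁ →* Amalg i₁ i₂ :=
  (QuotientGroup.mk' _).comp Coprod.inl

/-- the canonical homomorphism of `G₂` -/
def in₂ (i₁ : G₀ →* G₁) (i₂ : G₀ →* G₂) : G₂ →* Amalg i₁ i₂ :=
  (QuotientGroup.mk' _).comp Coprod.inr

end amalg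

/-- Let `G₁`, `G₂` be finitely generated virtually abelian groups, `G₀` a virtually cyclic group and
`i₁ : G₀ → G₁`, `i₂ : G₀ → G₂` injective homomorphisms, and let `G = G₁ *_{G₀} G₂`. There are a finitely
generated virtually abelian group `E` and a homomorphism `ν : G → E` which is injective on `G₁` and on
`G₂` such that `ν(G₁) ∩ ν(G₂)` is virtually cyclic. -/
theorem result {G₀ : Type u} {G₁ : Type v} {G₂ : Type w} [Group G₀] [Group G₁] [Group G₂]
    (f₁ : Group.FG G₁) (f₂ : Group.FG G₂) (h₁ : IsVirtuallyAbelian G₁)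
    (h₂ : IsVirtuallyAbelian G₂) (h₀ : IsVirtuallyCyclic G₀)
    (i₁ : G₀ →* G₁) (i₂ : G₀ →* G₂) (j₁ : Function.Injective i₁) (j₂ : Function.Injective i₂) :
    ∃ (E : Type (max u v w)) (_ : Group E) (ν : Amalg i₁ i₂ →* E),
      Group.FG E ∧ IsVirtuallyAbelian E ∧
      Function.Injective (ν.comp (in₁ i₁ i₂)) ∧ Function.Injective (ν.comp (in₂ i₁ i₂)) ∧
      IsVirtuallyCyclic ↥((ν.comp (in₁ i₁ i₂)).range ⊓ (ν.comp (in₂ i₁ i₂)).range) := by
  obtain ⟨T, hT, M, hM, ν₁, ν₂, hag, inj₁, inj₂, hcyc⟩ := main f₁ f₂ h₁ h₂ i₁ i₂ j₁ j₂ h₀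
  let ν' : Amalg i₁ i₂ →* Mon T M := QuotientGroup.lift _ (Coprod.lift ν₁ ν₂) (by
    refine Subgroup.normalClosure_le_normal ?_
    rintro _ ⟨g, rfl⟩
    show Coprod.lift ν₁ ν₂ (Coprod.inl (i₁ g) * (Coprod.inr (i₂ g))⁻¹) = 1
    rw [map_mul, map_inv, Coprod.lift_apply_inl, Coprod.lift_apply_inr, hag, mul_inv_cancel])
  have e₁ : ∀ g, ν' (in₁ i₁ i₂ g) = ν₁ g := fun g => Coprod.lift_apply_inl ν₁ ν₂ g
  have e₂ : ∀ g, ν' (in₂ i₁ i₂ g) = ν₂ g := fun g => Coprod.lift_apply_inr ν₁ ν₂ g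
  have hfi : ((Mon.perm (T := T) (M := M)).ker).FiniteIndex := Mon.ker_fi
  have hFG : Group.FG (Amalg i₁ i₂) := by
    have : Group.FG (Coprod G₁ G₂) := by
      rw [Group.fg_def, ← Coprod.range_inl_sup_range_inr]
      exact Subgroup.FG.sup ((Group.fg_iff_subgroup_fg _).1 inferInstance)
        ((Group.fg_iff_subgroup_fg _).1 inferInstance)
    infer_instance
  refine ⟨ν'.range, inferInstance, ν'.rangeRestrict, inferInstance, ?_, ?_, ?_, ?_⟩
  · refine ⟨(Mon.perm.ker).subgroupOf ν'.range, inferInstance, ?_⟩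
    intro x hx y hy
    exact Subtype.ext (Mon.ker_comm (x : Mon T M) y hx hy)
  · intro a b hab
    apply inj₁
    rw [← e₁, ← e₁]
    exact congrArg Subtype.val hab
  · intro a b hab
    apply inj₂
    rw [← e₂, ← e₂]
    exact congrArg Subtype.val hab
  · set R := (ν'.rangeRestrict.comp (in₁ i₁ i₂)).range ⊓ (ν'.rangeRestrict.comp (in₂ i₁ i₂)).range
      with hR
    let θ : R →* Mon T M := ν'.range.subtype.comp R.subtype
    have hθ : Function.Injective θ := fun a b hab => Subtype.ext (Subtype.ext hab)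
    refine ⟨(Mon.perm.comp θ).ker, ?_, ?_⟩
    · have : Finite (Equiv.Perm T) := inferInstance
      infer_instance
    · let D := ν₁.range ⊓ ν₂.range ⊓ (Mon.perm (T := T) (M := M)).ker
      have hD : IsCyclic D := hcyc
      have hmem : ∀ x : (Mon.perm.comp θ).ker, θ x ∈ D := by
        rintro ⟨⟨x, ⟨⟨g₁, hg₁⟩, ⟨g₂, hg₂⟩⟩⟩, hx⟩
        refine ⟨⟨⟨g₁, ?_⟩, ⟨g₂, ?_⟩⟩, hx⟩
        · rw [← e₁]
          exact congrArg Subtype.val hg₁
        · rw [← e₂]
          exact congrArg Subtype.val hg₂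
      let κ : (Mon.perm.comp θ).ker →* D :=
        (θ.comp (Subgroup.subtype _)).codRestrict D hmem
      refine isCyclic_of_injective κ ?_
      intro a b hab
      have h1 : ((κ a : D) : Mon T M) = ((κ b : D) : Mon T M) := by rw [hab]
      exact Subtype.ext (hθ h1)

end Pool.Agent.Results.MP_f748d5_al.VirtuallyAbelianImages
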